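import Pool.Agent.H853.SR.Cen

/-!
# Strongly regular elements: the monodromy Lie algebra and the Tate endomorphisms
-/

set_option autoImplicit false
set_option linter.unusedSectionVars false

namespace Pool.Agent.H853.SR

open Module TensorProduct Pool.Agent.TH118.SG Pool.Agent.Y114.RM Pool.Agent.Y86.RM Pool.Agent.Y914.RM
  Pool.Agent.Y212.RM Pool.Agent.NH34.BD Pool.Agent.Y114.MU Pool.Agent.H204R3.GP

section defs

variable {k : Type} [Field k] [Algebra k ℂ] {V : Type} [AddCommGroup V] [Module k V]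
  {Γ : Type} [Group Γ] (ρ : Representation k Γ V)

/-- The generalized eigenspace in `𝔤 ⊗ ℂ`, for the eigenvalue `β`, of the conjugation
`X ↦ γ X γ⁻¹`. -/
noncomputable def rootSpace (𝔤 : Submodule k (End k V)) (γ : Γ) (β : ℂ) :
    Submodule ℂ (End ℂ (ℂ ⊗[k] V)) :=
  bcS ℂ 𝔤 ⊓ (AdE ((ρ γ).baseChange ℂ) ((ρ γ⁻¹).baseChange ℂ)).maxGenEigenspace β

/-- `γ` is strongly regular for `𝔤`: it normalizes `𝔤`; the elements of `𝔤 ⊗ ℂ` in the generalized
eigenspace for the eigenvalue one commute with each other; the other eigenvalues are simple, and they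
are not roots of unity. -/
structure StronglyRegular (𝔤 : Submodule k (End k V)) (γ : Γ) : Prop where
  normalizes : ∀ X ∈ 𝔤, ρ γ * X * ρ γ⁻¹ ∈ 𝔤
  torus : ∀ X ∈ rootSpace ρ 𝔤 γ 1, ∀ Y ∈ rootSpace ρ 𝔤 γ 1, X * Y = Y * X
  simple : ∀ β, β ≠ 1 → finrank ℂ (rootSpace ρ 𝔤 γ β) ≤ 1
  torsionFree : ∀ β, β ≠ 1 → (∃ m : ℕ, 0 < m ∧ β ^ m = 1) → rootSpace ρ 𝔤 γ β = ⊥

end defs

theorem smul_of_finrank {K E : Type} [Field K] [AddCommGroup E] [Module K E]
    [FiniteDimensional K E] {M : Submodule K E} (h : finrank K M ≤ 1) {X Y : E} (hX : X ∈ M)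
    (hY : Y ∈ M) (h0 : X ≠ 0) : ∃ c : K, Y = c • X := by
  obtain ⟨v, hv⟩ := finrank_le_one_iff.1 h
  obtain ⟨a, ha⟩ := hv ⟨X, hX⟩
  obtain ⟨b, hb⟩ := hv ⟨Y, hY⟩
  have ha' : a • (v : E) = X := congrArg Subtype.val ha
  have hb' : b • (v : E) = Y := congrArg Subtype.val hb
  have ha0 : a ≠ 0 := by
    rintro rfl
    exact h0 (by rw [← ha', zero_smul])
  exact ⟨b * a⁻¹, by rw [← ha', ← hb', smul_smul, mul_assoc, inv_mul_cancel₀ ha0, mul_one]⟩

section closed

variable {k : Type} [Field k] {V : Type} [AddCommGroup V] [Module k V]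

/-- `G` consists of all endomorphisms which kill the tensors killed by `G`. -/
def Closed (G : Submodule k (End k V)) : Prop :=
  ∀ X, (∀ (m : ℕ) (φ : Tensor k V m), (∀ Y ∈ G, KillsTensor Y φ) → KillsTensor X φ) → X ∈ G

/-- An endomorphism commutes with `P` if and only if it kills the tensor of `P`. -/
theorem exists_tensor (P : End k V) : ∃ φ : Tensor k V 2, ∀ X : End k V,
    KillsTensor X φ ↔ X * P = P * X := by
  let ω : (V × Dual k V) →ₗ[k] (V × Dual k V) →ₗ[k] k :=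
    LinearMap.mk₂ k (fun a b => b.2 (P a.1))
      (fun a a' b => by rw [Prod.fst_add, map_add, map_add])
      (fun c a b => by rw [Prod.smul_fst, map_smul, map_smul])
      (fun a b b' => by rw [Prod.snd_add, LinearMap.add_apply])
      (fun c a b => by rw [Prod.smul_snd, LinearMap.smul_apply])
  let φ : Tensor k V 2 := Pool.Agent.H204R3.SP.bil2 ω
  have hφ : ∀ v, φ v = (v 1).2 (P (v 0).1) := fun v => rfl
  refine ⟨φ, fun X => ⟨fun h1 => ?_, fun h v => ?_⟩⟩
  · refine LinearMap.ext fun x => ?_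
    rw [← sub_eq_zero, ← Module.forall_dual_apply_eq_zero_iff k]
    intro ξ
    have h2 := h1 ![(x, 0), (0, ξ)]
    rw [Fin.sum_univ_two, hφ, hφ, Function.update_self, Function.update_self,
      Function.update_of_ne Fin.zero_ne_one.symm, Function.update_of_ne Fin.zero_ne_one] at h2
    change ξ (P (X x)) + -(ξ (X (P x))) = 0 at h2
    rw [map_sub, Module.End.mul_apply, Module.End.mul_apply, sub_eq_zero]
    linear_combination -h2
  · rw [Fin.sum_univ_two, hφ, hφ, Function.update_self, Function.update_self,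
      Function.update_of_ne Fin.zero_ne_one.symm, Function.update_of_ne Fin.zero_ne_one]
    change (v 1).2 (P (X (v 0).1)) + -((v 1).2 (X (P (v 0).1))) = 0
    have h2 := LinearMap.congr_fun h (v 0).1
    rw [Module.End.mul_apply, Module.End.mul_apply] at h2
    rw [h2, add_neg_cancel]

theorem closed_cenOf {G : Submodule k (End k V)} (hG : Closed G) (A : Submodule k (End k V)) :
    Closed (cenOf G A) := by
  intro X hX
  refine ⟨hG X fun m φ hφ => hX m φ fun Y hY => hφ Y hY.1, fun P hP => ?_⟩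
  obtain ⟨φ, hφ⟩ := exists_tensor P
  exact (hφ X).1 (hX 2 φ fun Y hY => (hφ Y).2 (hY.2 P hP))

end closed

section loc

variable {k : Type} [Field k] [CharZero k] [Algebra k ℂ] {V : Type} [AddCommGroup V] [Module k V]
  [FiniteDimensional k V] {Γ : Type} [Group Γ] (ρ : Representation k Γ V)

theorem tr_conj {g g' X Y : End k V} :
    LinearMap.trace k V (g * (X * g') * Y) = LinearMap.trace k V (X * (g' * (Y * g))) := by
  have h1 : g * (X * g') * Y = g * (X * (g' * Y)) := by noncomm_ring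
  rw [h1, LinearMap.trace_mul_comm]
  congr 1

/-- The trace form of the monodromy Lie algebra of a semisimple representation. -/
theorem nonDeg_L (hss : FiniteIndexSemisimple ρ) {L : Submodule k (End k V)}
    (hL : ∀ X, X ∈ L ↔ X ∈ LT ρ) (hLie : IsLie L)
    (hAd : ∀ γ, ∀ X ∈ L, AdE (ρ γ) (ρ γ⁻¹) X ∈ L) : Closed L ∧ NonDeg L := by
  have hcl : Closed L := by
    intro X hX
    rw [hL]
    exact mem_LT_of_semisimple ρ hss fun m φ hφ => hX m φ fun Y hY => ((hL Y).1 hY).2 m φ hφ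
  refine ⟨hcl, ?_⟩
  have hst : ∀ s ∈ (⊤ : Subgroup Γ), ∀ u ∈ kerOf (radOf L), ρ s u ∈ kerOf (radOf L) := by
    rintro s - u hu X ⟨hX, hX'⟩
    have h1 : AdE (ρ s⁻¹) (ρ s⁻¹⁻¹) X ∈ radOf L := by
      refine ⟨hAd s⁻¹ X hX, fun Y hY => ?_⟩
      rw [AdE_apply, inv_inv, tr_conj]
      have h2 := hAd s Y hY
      rw [AdE_apply] at h2
      exact hX' _ h2
    have h2 := hu _ h1
    rw [AdE_apply, inv_inv, Module.End.mul_apply, Module.End.mul_apply] at h2
    have h3 := congrArg (ρ s) h2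
    rw [map_zero, ← Module.End.mul_apply, rho_mul_inv, Module.End.one_apply] at h3
    exact h3
  obtain ⟨U', hU', hc⟩ := hss ⊤ inferInstance _ hst
  refine nonDeg_of ℂ hLie hcl (W := U') (fun X hX v hv => ?_) hc
  exact ((hL X).1 hX.1).1 U' ⟨⊤, inferInstance, hU'⟩ v hv

/-- The subspaces stable under the monodromy Lie algebra have stable complements. -/
theorem exists_projL (h : Inputs) (h2 : Inputs2) {L : Submodule k (End k V)}
    (hLie : IsLie L) (hcl : Closed L) (hND : NonDeg L) :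
    ∀ U : Submodule k V, (∀ X ∈ L, ∀ x ∈ U, X x ∈ U) →
      ∃ P : End k V, (∀ X ∈ L, X * P = P * X) ∧ (∀ x, P x ∈ U) ∧ ∀ x ∈ U, P x = x := by
  have hLC : IsLie (bcS ℂ L) := (h.bc k ℂ V L).2.1 hLie
  have hN : NonDeg (bcS ℂ L) := (h.bc k ℂ V L).2.2.1 hND
  intro U hU
  obtain ⟨P, hP1, hP2, hP3⟩ := h2.weyl ℂ _ (bcS ℂ L) hLC hN (fun z hz hzL => by
    obtain ⟨s, hs, hs1, hs2, hs3⟩ := h2.jord k ℂ V L hcl z hz
    have h0 : z - s = 0 := by
      refine hN _ ((bcS ℂ L).sub_mem hz hs) fun Y hY => ?_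
      have hc : Commute (z - s) Y := by
        have e1 := hzL Y hY
        have e2 := hs3 Y e1
        rw [Commute, SemiconjBy, sub_mul, mul_sub, e1, e2]
      exact (LinearMap.isNilpotent_trace_of_isNilpotent (hc.isNilpotent_mul_right hs2)).eq_zero
    rw [sub_eq_zero.1 h0]
    exact hs1) (U.baseChange ℂ) (bcS_stable hU)
  obtain ⟨π, hπ⟩ := exists_pi k ℂ
  refine ⟨pM π P, fun X hX => ?_, fun x => ?_, fun x hx => ?_⟩
  · rw [← pM_bc_mul, hP1 _ (mem_bcS hX), pM_mul_bc]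
  · rw [pM_apply]
    exact pv_mem π (hP2 _)
  · rw [pM_apply, hP3 _ (Submodule.tmul_mem_baseChange_of_mem 1 hx), pv_tmul, hπ, one_smul]

/-- The trace form of the centralizer of the Tate endomorphisms. -/
theorem nonDeg_cenOf (h : Inputs) (h2 : Inputs2) {L G : Submodule k (End k V)}
    (hLie : IsLie L) (hcl : Closed L) (hND : NonDeg L) (hG : IsLie G) (hGcl : Closed G)
    (hLG : L ≤ G) : NonDeg (cenOf G (comm L)) := by
  have hL' : L ≤ cenOf G (comm L) := fun X hX => ⟨hLG hX, fun Y hY => hY X hX⟩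
  have hst : ∀ X ∈ L, ∀ x ∈ kerOf (radOf (cenOf G (comm L))), X x ∈
      kerOf (radOf (cenOf G (comm L))) := by
    intro X hX x hx Y hY
    have h1 := radOf_ideal (cenOf_lie hG) hY (hL' hX)
    have h3 := hx _ h1
    rw [LinearMap.sub_apply, Module.End.mul_apply, Module.End.mul_apply, hx Y hY, map_zero,
      zero_sub, neg_eq_zero] at h3
    exact h3
  obtain ⟨P, hP1, hP2, hP3⟩ := exists_projL h h2 hLie hcl hND _ hst
  refine nonDeg_of ℂ (cenOf_lie hG) (closed_cenOf hGcl _) (W := LinearMap.ker P)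
    (fun X hX v hv => ?_) ?_
  · rw [LinearMap.mem_ker] at hv ⊢
    have h1 := LinearMap.congr_fun (hX.1.2 P fun Y hY => hP1 Y hY) v
    rw [Module.End.mul_apply, Module.End.mul_apply, hv, map_zero] at h1
    exact h1.symm
  · exact LinearMap.IsProj.isCompl ⟨hP2, hP3⟩

/-- **Main theorem, linear algebra.** -/
theorem local_main (h : Inputs) (h2 : Inputs2) {L G : Submodule k (End k V)}
    (hss : FiniteIndexSemisimple ρ) (hL : ∀ X, X ∈ L ↔ X ∈ LT ρ) (hLie : IsLie L)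
    (hAd : ∀ γ, ∀ X ∈ L, AdE (ρ γ) (ρ γ⁻¹) X ∈ L) (hG : IsLie G) (hGcl : Closed G) (hLG : L ≤ G)
    (γ : Γ) (hγ : StronglyRegular ρ G γ) :
    ∀ X ∈ cenOf G (comm L), ∃ x ∈ L, ∃ z ∈ cent (cenOf G (comm L)), X = x + z := by
  obtain ⟨hcl, hND⟩ := nonDeg_L ρ hss hL hLie hAd
  set G' := cenOf G (comm L) with hG'
  have hLG' : L ≤ G' := fun X hX => ⟨hLG hX, fun Y hY => hY X hX⟩
  have hG'G : G' ≤ G := fun X hX => hX.1
  have hG'lie : IsLie G' := cenOf_lie hG
  have hG'cl : Closed G' := closed_cenOf hGcl _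
  have hG'nd : NonDeg G' := nonDeg_cenOf h h2 hLie hcl hND hG hGcl hLG
  have hG'st : ∀ X ∈ G', AdE (ρ γ) (ρ γ⁻¹) X ∈ G' := by
    rintro X ⟨hX, hX'⟩
    refine ⟨?_, fun Y hY => ?_⟩
    · rw [AdE_apply, ← mul_assoc]
      exact hγ.normalizes X hX
    · have h3 := comm_conj ρ hAd γ⁻¹ Y hY
      rw [AdE_apply, inv_inv] at h3
      have h4 := hX' _ h3
      have e1 : ρ γ * (X * ρ γ⁻¹) * Y = ρ γ * (X * (ρ γ⁻¹ * (Y * ρ γ))) * ρ γ⁻¹ := by
        calc ρ γ * (X * ρ γ⁻¹) * Y = ρ γ * (X * (ρ γ⁻¹ * (Y * (ρ γ * ρ γ⁻¹)))) := by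
              rw [rho_mul_inv, mul_one]; noncomm_ring
          _ = _ := by noncomm_ring
      have e2 : Y * (ρ γ * (X * ρ γ⁻¹)) = ρ γ * ((ρ γ⁻¹ * (Y * ρ γ)) * X) * ρ γ⁻¹ := by
        calc Y * (ρ γ * (X * ρ γ⁻¹)) = (ρ γ * ρ γ⁻¹) * (Y * (ρ γ * (X * ρ γ⁻¹))) := by
              rw [rho_mul_inv, one_mul]
          _ = _ := by noncomm_ring
      rw [AdE_apply, e1, e2, h4]
  set gC : End ℂ (ℂ ⊗[k] V) := (ρ γ).baseChange ℂ with hgC
  set g'C : End ℂ (ℂ ⊗[k] V) := (ρ γ⁻¹).baseChange ℂ with hg'C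
  have hgg' : gC * g'C = 1 := by rw [hgC, hg'C, ← bc_mul, rho_mul_inv, bc_one]
  have hg'g : g'C * gC = 1 := by rw [hgC, hg'C, ← bc_mul, rho_inv_mul, bc_one]
  have hmono : bcS ℂ G' ≤ bcS ℂ G := bcS_mono hG'G
  have S : Sit gC g'C (bcS ℂ G') (bcS ℂ L) :=
    { tfG :=
        { inv := hgg'
          inv' := hg'g
          stable := AdE_bcS hG'st
          tf := fun β hβ m hm hm' X hX hX' => by
            have h3 := hγ.torsionFree β hβ ⟨m, hm, hm'⟩
            have h4 : X ∈ rootSpace ρ G γ β := ⟨hmono hX, hX'⟩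
            rw [h3] at h4
            exact h4 }
      lieG := (h.bc k ℂ V G').2.1 hG'lie
      ndG := (h.bc k ℂ V G').2.2.1 hG'nd
      lieL := (h.bc k ℂ V L).2.1 hLie
      ndL := (h.bc k ℂ V L).2.2.1 hND
      le := bcS_mono hLG'
      stL := AdE_bcS (hAd γ)
      torL := tor_le ρ h hL γ
      cen := fun Y hY X hX =>
        bcS_comm2 (A := G') (B := comm L) (fun X hX Y hY => hX.2 Y hY) X hX Y
          (mem_bcS_comm h.bc hY)
      jord := h2.jord k ℂ V G' hG'cl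
      comm := fun X hX hX1 Y hY hY1 => hγ.torus X ⟨hmono hX, hX1⟩ Y ⟨hmono hY, hY1⟩
      simple := fun β hβ X hX hXβ hX0 Y hY hYβ => by
        exact smul_of_finrank (hγ.simple β hβ) ⟨hmono hX, hXβ⟩ ⟨hmono hY, hYβ⟩ hX0 }
  have h3 := eq_sup S
  -- descent
  have h4 : cent (bcS ℂ G') ≤ bcS ℂ (cent G') := by
    rintro Y ⟨hY, hY'⟩
    rw [(h.bc k ℂ V (cent G')).1]
    intro π
    refine ⟨((h.bc k ℂ V G').1 Y).1 hY π, fun X hX => ?_⟩
    rw [← pM_mul_bc, hY' _ (mem_bcS hX), pM_bc_mul]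
  have h5 : L ⊔ cent G' ≤ G' := sup_le hLG' fun X hX => hX.1
  have h6 : L ⊔ cent G' = G' := by
    refine (h.bc k ℂ V G').2.2.2.2.1 _ h5 (le_antisymm (bcS_mono h5) (h3.trans ?_))
    exact sup_le (bcS_mono le_sup_left) (h4.trans (bcS_mono le_sup_right))
  intro X hX
  rw [← h6] at hX
  obtain ⟨x, hx, z, hz, rfl⟩ := Submodule.mem_sup.1 hX
  exact ⟨x, hx, z, hz, rfl⟩

end loc

end Pool.Agent.H853.SR
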