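import Pool.Graph.R_seed8.Y914.RM.Jord

/-!
# Replicas: the Lie algebra of a tensor stabilizer contains the replicas of its elements

The replica of `x` for an additive map `φ : C → C` is the scalar `φ β` on the generalized eigenspace
of `x` for `β`.  (Variant of the file `Y914.RM.Jord`, which treats the semisimple part.)
-/

set_option autoImplicit false
set_option linter.unusedSectionVars false

namespace Pool.Agent.H853.SR

open Module TensorProduct Pool.Agent.TH118.SG Pool.Agent.Y114.RM Pool.Agent.Y86.RM Pool.Agent.Y914.RM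

/-- `s` is the scalar `φ β` on the generalized eigenspace of `x` for `β` -/
def IsRepl {K : Type} [Field K] {V : Type} [AddCommGroup V] [Module K V] (φ : K →+ K)
    (x s : End K V) : Prop :=
  ∀ β, ∀ v ∈ x.maxGenEigenspace β, s v = φ β • v

section nat

variable {K : Type} [Field K] [CharZero K] [IsAlgClosed K] {E₁ E₂ : Type} [AddCommGroup E₁]
  [Module K E₁] [FiniteDimensional K E₁] [AddCommGroup E₂] [Module K E₂]

theorem exists_repl (φ : K →+ K) (x : End K E₁) : ∃ s, IsRepl φ x s := exists_op x fun β => φ β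

theorem repl_nat {φ : K →+ K} {f₁ Y₁ : End K E₁} {f₂ Y₂ : End K E₂} {A : E₁ →ₗ[K] E₂}
    (h : ∀ x, A (f₁ x) = f₂ (A x)) (h1 : IsRepl φ f₁ Y₁) (h2 : IsRepl φ f₂ Y₂) (x : E₁) :
    A (Y₁ x) = Y₂ (A x) := by
  have hx : x ∈ ⨆ β, f₁.maxGenEigenspace β := by
    rw [Module.End.iSup_maxGenEigenspace_eq_top f₁]
    exact Submodule.mem_top
  induction hx using Submodule.iSup_induction' with
  | mem β x hx => rw [h1 β x hx, map_smul, h2 β _ (map_gen h hx)]
  | zero => simp only [map_zero]
  | add x y _ _ hx hy => rw [map_add, map_add, map_add, map_add, hx, hy]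

end nat

section mainss

variable {C : Type} [Field C] [CharZero C] [IsAlgClosed C] {E F : Type} [AddCommGroup E] [Module C E]
  [FiniteDimensional C E] [AddCommGroup F] [Module C F] {m : ℕ}

/-- the replica kills what `X` kills -/
theorem dsum_repl {φ : C →+ C} {Φ : MultilinearMap C (fun _ : Fin m => E) F} {X Z : End C E}
    (hX : ∀ w, ∑ l, Φ (Function.update w l (X (w l))) = 0) (hZ : IsRepl φ X Z) (w : Fin m → E) :
    ∑ l, Φ (Function.update w l (Z (w l))) = 0 := by
  classical
  let b : ∀ β : C, Basis (Fin (finrank C (X.maxGenEigenspace β))) C (X.maxGenEigenspace β) :=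
    fun β => Module.finBasis C _
  let B := (gen_internal X).collectedBasis b
  have hB : ∀ r, B r ∈ X.maxGenEigenspace r.1 := fun r =>
    (gen_internal X).collectedBasis_mem b r
  have h0 : dsum Φ Z = 0 := by
    refine Basis.ext_multilinear (fun _ => B) fun r => ?_
    rw [dsum_apply, _root_.zero_apply]
    have h3 : ∀ j, Φ (Function.update (fun j => B (r j)) j (Z (B (r j)))) =
        φ (r j).1 • Φ fun j => B (r j) := by
      intro j
      rw [hZ _ _ (hB (r j)), MultilinearMap.map_update_smul, Function.update_eq_self]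
    rw [Finset.sum_congr rfl fun j _ => h3 j, ← Finset.sum_smul]
    by_cases hS : ∑ j, (r j).1 = 0
    · rw [← map_sum, hS, map_zero, zero_smul]
    · have h4 : ∀ l, ∃ n : ℕ, ((X - algebraMap C (End C E) (r l).1) ^ n) (B (r l)) = 0 :=
        fun l => mem_gen.1 (hB (r l))
      choose n hn using h4
      rw [gen_zero hX (fun l => (r l).1) hS (∑ l, n l) (fun j => B (r j)) n hn le_rfl, smul_zero]
  rw [← dsum_apply, h0, _root_.zero_apply]

end mainss

section main

variable {k : Type} [Field k] [CharZero k] {C : Type} [Field C] [CharZero C] [IsAlgClosed C]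
  [Algebra k C] {U : Type} [AddCommGroup U] [Module k U] [FiniteDimensional k U]

/-- the components of the replica kill the tensors killed by `L` -/
theorem claimR {φ : C →+ C} {L : Submodule k (End k U)} {X Z : End C (C ⊗[k] U)}
    (hX : X ∈ bcS C L)
    (hZ : IsRepl φ X Z) (π : C →ₗ[k] k) {m : ℕ} (ψ : MultilinearMap k (fun _ : Fin m => U) k)
    (hψ : ∀ A ∈ L, ∀ v, ∑ l, ψ (Function.update v l (A (v l))) = 0) (v : Fin m → U) :
    ∑ l, ψ (Function.update v l (pM π Z (v l))) = 0 := by
  classical
  let b := Module.finBasis k U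
  have key := dsum_repl (bcm_kill b ψ hψ hX) hZ (fun l => (1 : C) ⊗ₜ[k] v l)
  have key2 := congrArg π key
  rw [map_zero, map_sum] at key2
  rw [← key2]
  refine Finset.sum_congr rfl fun l _ => ?_
  rw [pM_apply, ← pi_bcm b ψ π v l]

end main

/-- The Lie algebra of a tensor stabilizer contains the replicas of its elements. -/
theorem repl_mem {k : Type} [Field k] [CharZero k] {C : Type} [Field C] [CharZero C]
    [IsAlgClosed C] [Algebra k C] {V : Type} [AddCommGroup V] [Module k V] [FiniteDimensional k V]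
    {G : Submodule k (End k V)}
    (hG : ∀ X, (∀ (m : ℕ) (φ : Tensor k V m), (∀ Y ∈ G, KillsTensor Y φ) → KillsTensor X φ) →
      X ∈ G) {x : End C (C ⊗[k] V)} (hx : x ∈ bcS C G) {φ : C →+ C} {s : End C (C ⊗[k] V)}
    (hs : IsRepl φ x s) : s ∈ bcS C G := by
  classical
  rw [(Pool.Agent.Y809.RM.BC.bc k C V G).1]
  intro π
  apply hG
  intro m ψ hψ
  obtain ⟨X, X', hXm, hinl, hinr⟩ := lift hx
  obtain ⟨Z, hZ⟩ := exists_repl φ X
  obtain ⟨Y', hY'⟩ := exists_repl φ X'
  have e1 : ∀ x : V, pM π Z (x, 0) = (pM π s x, 0) := by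
    intro x
    have h1 := repl_nat hinl hs hZ ((1 : C) ⊗ₜ[k] x)
    have h2 := congrArg (pv π) h1
    rw [pv_nat, LinearMap.baseChange_tmul] at h2
    exact h2.symm
  have e2 : ∀ ξ : Dual k V, pM π Z (0, ξ) = (0, pM π Y' ξ) := by
    intro ξ
    have h1 := repl_nat hinr hY' hZ ((1 : C) ⊗ₜ[k] ξ)
    have h2 := congrArg (pv π) h1
    rw [pv_nat, LinearMap.baseChange_tmul] at h2
    exact h2.symm
  have hev : ∀ A ∈ G.map (lieL k V), ∀ v : Fin 2 → V × Dual k V,
      ∑ l, ev2 k V (Function.update v l (A (v l))) = 0 := by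
    rintro _ ⟨Y, _, rfl⟩ v
    rw [Fin.sum_univ_two]
    simp only [ev2_apply]
    rw [Function.update_self, Function.update_self, Function.update_of_ne (by decide),
      Function.update_of_ne (by decide)]
    change (v 1).2 (Y (v 0).1) + -((v 1).2 (Y (v 0).1)) = 0
    rw [add_neg_cancel]
  have e3 : ∀ (x : V) (ξ : Dual k V), (pM π Y' ξ) x = - ξ (pM π s x) := by
    intro x ξ
    have h1 := claimR hXm hZ π (ev2 k V) hev ![(x, 0), (0, ξ)]
    rw [Fin.sum_univ_two] at h1
    simp only [ev2_apply] at h1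
    have h2 : (Function.update ![((x, 0) : V × Dual k V), (0, ξ)] 0
        (pM π Z (![((x, 0) : V × Dual k V), (0, ξ)] 0))) 1 = (0, ξ) := by
      rw [Function.update_of_ne (by decide)]
      rfl
    have h3 : (Function.update ![((x, 0) : V × Dual k V), (0, ξ)] 0
        (pM π Z (![((x, 0) : V × Dual k V), (0, ξ)] 0))) 0 = (pM π s x, 0) := by
      rw [Function.update_self]
      exact e1 x
    have h4 : (Function.update ![((x, 0) : V × Dual k V), (0, ξ)] 1
        (pM π Z (![((x, 0) : V × Dual k V), (0, ξ)] 1))) 1 = (0, pM π Y' ξ) := by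
      rw [Function.update_self]
      exact e2 ξ
    have h5 : (Function.update ![((x, 0) : V × Dual k V), (0, ξ)] 1
        (pM π Z (![((x, 0) : V × Dual k V), (0, ξ)] 1))) 0 = (x, 0) := by
      rw [Function.update_of_ne (by decide)]
      rfl
    rw [h2, h3, h4, h5] at h1
    exact eq_neg_of_add_eq_zero_right h1
  have e4 : pM π Z = lie (pM π s) := by
    apply LinearMap.ext
    rintro ⟨x, ξ⟩
    have h1 : ((x, ξ) : V × Dual k V) = (x, 0) + (0, ξ) := by simp
    rw [h1, map_add, e1, e2, ← h1]
    unfold lie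
    refine Prod.ext ?_ ?_
    · change pM π s x + 0 = pM π s x
      rw [add_zero]
    · apply LinearMap.ext
      intro y
      change ((0 : Dual k V) + pM π Y' ξ) y = (-(pM π s).dualMap) ξ y
      rw [zero_add, e3]
      rfl
  intro v
  rw [← e4]
  refine claimR hXm hZ π ψ ?_ v
  rintro _ ⟨Y, hY, rfl⟩ v
  exact hψ Y hY v

end Pool.Agent.H853.SR
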