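import Pool.Agent.H853.SR.Fin
import Pool.Agent.H853.SR.Repl
import Mathlib.LinearAlgebra.Dimension.Free
import Mathlib.LinearAlgebra.Complex.FiniteDimensional

/-!
# Strongly regular elements of the Lie algebra of the monodromy group

The additive version of `SR.Fin`: instead of an element of the group an element `μ` of the Lie algebra
(with complex coefficients) is used, for example the Hodge-Tate endomorphism.
-/

set_option autoImplicit false
set_option linter.unusedSectionVars false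

namespace Pool.Agent.H853.SR

open Module TensorProduct Pool.Agent.TH118.SG Pool.Agent.Y114.RM Pool.Agent.Y86.RM Pool.Agent.Y914.RM
  Pool.Agent.Y212.RM Pool.Agent.NH34.BD Pool.Agent.Y114.MU Pool.Agent.H204R3.GP

/-- The bracket with `μ`, `X ↦ μ X - X μ`. -/
noncomputable def brk {K : Type} [Field K] {V : Type} [AddCommGroup V] [Module K V] (μ : End K V) :
    End K (End K V) := LinearMap.mulLeft K μ - LinearMap.mulRight K μ

theorem brk_apply {K : Type} [Field K] {V : Type} [AddCommGroup V] [Module K V] (μ X : End K V) :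
    brk μ X = μ * X - X * μ := rfl

/-- An injective homomorphism from the additive group of the complex numbers to the positive real
numbers. -/
theorem exists_exp : ∃ e : ℂ → ℂ, (∀ a b, e (a + b) = e a * e b) ∧ (∀ a, e a ≠ 0) ∧
    ∀ a, ∀ m : ℕ, 0 < m → e a ^ m = 1 → a = 0 := by
  have h1 : Module.rank ℚ ℂ = Module.rank ℚ ℝ := by
    rw [Real.rank_rat_real, Complex.rank_rat_complex]
  obtain ⟨σ⟩ := nonempty_linearEquiv_of_rank_eq h1
  refine ⟨fun a => ((Real.exp (σ a) : ℝ) : ℂ), fun a b => ?_, fun a => ?_, fun a m hm h => ?_⟩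
  · show ((Real.exp (σ (a + b)) : ℝ) : ℂ) = _
    rw [map_add, Real.exp_add, Complex.ofReal_mul]
  · exact Complex.ofReal_ne_zero.2 (Real.exp_pos _).ne'
  · have h2 : Real.exp (σ a) ^ m = 1 := by
      have h0 : ((Real.exp (σ a) : ℝ) : ℂ) ^ m = 1 := h
      exact_mod_cast h0
    rw [← Real.exp_nat_mul, Real.exp_eq_one_iff, mul_eq_zero] at h2
    rcases h2 with h2 | h2
    · exact absurd (Nat.cast_eq_zero.1 h2) hm.ne'
    · exact (map_eq_zero_iff σ σ.injective).1 h2

theorem le_of_indep {K M ι : Type} [Field K] [AddCommGroup M] [Module K M] {A B : ι → Submodule K M}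
    (hAB : ∀ i, A i ≤ B i) (hA : ⨆ i, A i = ⊤) (hB : iSupIndep B) (i : ι) : B i ≤ A i := by
  intro x hx
  have h1 : x ∈ ⨆ j, A j := by rw [hA]; exact Submodule.mem_top
  have h2 : (⨆ j, A j) ≤ A i ⊔ ⨆ j, ⨆ (_ : j ≠ i), A j := by
    refine iSup_le fun j => ?_
    by_cases hj : j = i
    · rw [hj]; exact le_sup_left
    · exact le_trans (le_iSup₂ (f := fun j (_ : j ≠ i) => A j) j hj) le_sup_right
  obtain ⟨a, ha, b, hb, hab⟩ := Submodule.mem_sup.1 (h2 h1)
  have h3 : b ∈ B i := by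
    have h4 : b = x - a := by rw [← hab]; abel
    rw [h4]
    exact (B i).sub_mem hx (hAB i ha)
  have h4 : b ∈ ⨆ j, ⨆ (_ : j ≠ i), B j :=
    (iSup_mono fun j => iSup_mono fun _ => hAB j) hb
  have h5 : b = 0 := (Submodule.disjoint_def.1 (hB i)) b h3 h4
  rw [← hab, h5, add_zero]
  exact ha

section shift

variable {K : Type} [Field K] {V : Type} [AddCommGroup V] [Module K V] {μ : End K V}

theorem shift_aux {a b : K} : ∀ (k m n : ℕ) (X : End K V) (v : V),
    m + n ≤ k → ((brk μ - algebraMap K (End K (End K V)) a) ^ m) X = 0 →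
    ((μ - algebraMap K (End K V) b) ^ n) v = 0 →
    ((μ - algebraMap K (End K V) (b + a)) ^ k) (X v) = 0 := by
  intro k
  induction k with
  | zero =>
    intro m n X v hmn hX _
    have h1 : m = 0 := by omega
    rw [h1, pow_zero, Module.End.one_apply] at hX
    rw [hX, LinearMap.zero_apply, map_zero]
  | succ k ih =>
    intro m n X v hmn hX hv
    rcases m with _ | m
    · rw [pow_zero, Module.End.one_apply] at hX
      rw [hX, LinearMap.zero_apply, map_zero]
    rcases n with _ | n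
    · rw [pow_zero, Module.End.one_apply] at hv
      rw [hv, map_zero, map_zero]
    set ν := brk μ - algebraMap K (End K (End K V)) a with hν
    set N := μ - algebraMap K (End K V) b with hN
    have e1 : (μ - algebraMap K (End K V) (b + a)) (X v) = (ν X) v + X (N v) := by
      have h2 : ∀ Z, ν Z = (μ * Z - Z * μ) - a • Z := fun Z => rfl
      have h3 : ∀ z, N z = μ z - b • z := fun z => rfl
      have h4 : (μ - algebraMap K (End K V) (b + a)) (X v) = μ (X v) - (b + a) • X v := rfl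
      rw [h2, h3, h4, LinearMap.sub_apply, LinearMap.sub_apply, LinearMap.smul_apply,
        Module.End.mul_apply, Module.End.mul_apply, map_sub, map_smul, add_smul]
      abel
    rw [pow_succ, Module.End.mul_apply, e1, map_add]
    have hνX : (ν ^ m) (ν X) = 0 := by
      rw [← Module.End.mul_apply, ← pow_succ]
      exact hX
    have hNv : (N ^ n) (N v) = 0 := by
      rw [← Module.End.mul_apply, ← pow_succ]
      exact hv
    rw [ih m (n + 1) (ν X) v (by omega) hνX hv, ih (m + 1) n X (N v) (by omega) hX hNv, add_zero]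

theorem shift {a b : K} {X : End K V} {v : V} (hX : X ∈ (brk μ).maxGenEigenspace a)
    (hv : v ∈ μ.maxGenEigenspace b) : X v ∈ μ.maxGenEigenspace (b + a) := by
  obtain ⟨m, hm⟩ := mem_gen.1 hX
  obtain ⟨n, hn⟩ := mem_gen.1 hv
  exact mem_gen.2 ⟨m + n, shift_aux (m + n) m n X v le_rfl hm hn⟩

end shift

variable {W : Type} [AddCommGroup W] [Module ℂ W] [FiniteDimensional ℂ W]

theorem ext_gen {μ : End ℂ W} {A B : End ℂ W}
    (h : ∀ β, ∀ v ∈ μ.maxGenEigenspace β, A v = B v) : A = B := by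
  refine LinearMap.ext fun x => ?_
  have hx : x ∈ ⨆ β, μ.maxGenEigenspace β := by
    rw [Module.End.iSup_maxGenEigenspace_eq_top μ]
    exact Submodule.mem_top
  induction hx using Submodule.iSup_induction' with
  | mem β x hx => exact h β x hx
  | zero => simp only [map_zero]
  | add x y _ _ hx hy => rw [map_add, map_add, hx, hy]

/-- The group element attached to `μ`. -/
structure Ex (e : ℂ → ℂ) (μ g g' : End ℂ W) : Prop where
  add : ∀ a b, e (a + b) = e a * e b
  ne : ∀ a, e a ≠ 0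
  tf : ∀ a, ∀ m : ℕ, 0 < m → e a ^ m = 1 → a = 0
  op : ∀ β, ∀ v ∈ μ.maxGenEigenspace β, g v = e β • v
  op' : ∀ β, ∀ v ∈ μ.maxGenEigenspace β, g' v = e (-β) • v

theorem exists_Ex (μ : End ℂ W) : ∃ (e : ℂ → ℂ) (g g' : End ℂ W), Ex e μ g g' := by
  obtain ⟨e, h1, h2, h3⟩ := exists_exp
  obtain ⟨g, hg⟩ := exists_op μ fun β => e β
  obtain ⟨g', hg'⟩ := exists_op μ fun β => e (-β)
  exact ⟨e, g, g', h1, h2, h3, hg, hg'⟩

variable {e : ℂ → ℂ} {μ g g' : End ℂ W}

theorem Ex.zero (E : Ex e μ g g') : e 0 = 1 := by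
  have h0 : e 0 = e 0 * e 0 := by
    have := E.add 0 0
    rwa [add_zero] at this
  have h1 : e 0 * (e 0 - 1) = 0 := by linear_combination -h0
  exact sub_eq_zero.1 ((mul_eq_zero.1 h1).resolve_left (E.ne 0))

theorem Ex.neg (E : Ex e μ g g') (a : ℂ) : e a * e (-a) = 1 := by
  rw [← E.add, add_neg_cancel, E.zero]

theorem Ex.inj (E : Ex e μ g g') {a b : ℂ} (h : e a = e b) : a = b := by
  have h1 : e (a - b) ^ 1 = 1 := by
    rw [pow_one, sub_eq_add_neg, E.add, h, E.neg]
  exact sub_eq_zero.1 (E.tf _ 1 one_pos h1)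

theorem Ex.inv (E : Ex e μ g g') : g * g' = 1 := by
  refine ext_gen (μ := μ) fun β v hv => ?_
  rw [Module.End.mul_apply, E.op' β v hv, map_smul, E.op β v hv, smul_smul, mul_comm, E.neg,
    one_smul, Module.End.one_apply]

theorem Ex.inv' (E : Ex e μ g g') : g' * g = 1 := by
  refine ext_gen (μ := μ) fun β v hv => ?_
  rw [Module.End.mul_apply, E.op β v hv, map_smul, E.op' β v hv, smul_smul, E.neg,
    one_smul, Module.End.one_apply]

/-- The conjugation with `g` is the scalar `e a` on the generalized eigenspace of the bracket. -/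
theorem Ex.ad (E : Ex e μ g g') {a : ℂ} {X : End ℂ W} (hX : X ∈ (brk μ).maxGenEigenspace a) :
    AdE g g' X = e a • X := by
  refine ext_gen (μ := μ) fun β v hv => ?_
  rw [AdE_apply, Module.End.mul_apply, Module.End.mul_apply, E.op' β v hv, map_smul, map_smul,
    E.op _ _ (shift hX hv), smul_smul, LinearMap.smul_apply]
  congr 1
  rw [E.add, ← mul_assoc, mul_comm (e (-β)), E.neg, one_mul]

theorem Ex.gen (E : Ex e μ g g') {γ : ℂ} {X : End ℂ W} (hX : X ∈ (AdE g g').maxGenEigenspace γ) :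
    X = 0 ∨ ∃ a, e a = γ ∧ X ∈ (brk μ).maxGenEigenspace a := by
  let A : ℂ → Submodule ℂ (End ℂ W) := fun γ => ⨆ a, ⨆ (_ : e a = γ), (brk μ).maxGenEigenspace a
  have hAB : ∀ γ, A γ ≤ (AdE g g').maxGenEigenspace γ := by
    intro γ
    refine iSup_le fun a => iSup_le fun ha => ?_
    intro X hX
    refine mem_gen.2 ⟨1, ?_⟩
    rw [pow_one]
    show AdE g g' X - γ • X = 0
    rw [E.ad hX, ha, sub_self]
  have hA : ⨆ γ, A γ = ⊤ := by
    rw [eq_top_iff, ← Module.End.iSup_maxGenEigenspace_eq_top (brk μ)]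
    refine iSup_le fun a => ?_
    exact le_trans (le_iSup₂ (f := fun b (_ : e b = e a) => (brk μ).maxGenEigenspace b) a rfl)
      (le_iSup A (e a))
  have h1 := le_of_indep hAB hA (Module.End.independent_maxGenEigenspace (AdE g g')) γ hX
  by_cases hγ : ∃ a, e a = γ
  · obtain ⟨a, ha⟩ := hγ
    refine Or.inr ⟨a, ha, ?_⟩
    have h2 : A γ ≤ (brk μ).maxGenEigenspace a := by
      refine iSup_le fun b => iSup_le fun hb => ?_
      rw [E.inj (hb.trans ha.symm)]
    exact h2 h1
  · left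
    have h2 : A γ ≤ ⊥ := by
      refine iSup_le fun b => iSup_le fun hb => ?_
      exact absurd ⟨b, hb⟩ hγ
    exact (Submodule.mem_bot ℂ).1 (h2 h1)

theorem Ex.stable (E : Ex e μ g g') {M : Submodule ℂ (End ℂ W)}
    (hM : ∀ X ∈ M, brk μ X ∈ M) : ∀ X ∈ M, AdE g g' X ∈ M := by
  intro X hX
  have h1 : M = ⨆ c, M ⊓ (brk μ).maxGenEigenspace c :=
    Submodule.eq_iSup_inf_genEigenspace ⊤ hM (Module.End.iSup_maxGenEigenspace_eq_top _)
  rw [h1] at hX
  induction hX using Submodule.iSup_induction' with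
  | mem c x hx =>
    rw [E.ad hx.2]
    exact M.smul_mem _ hx.1
  | zero => rw [map_zero]; exact M.zero_mem
  | add x y _ _ hx hy => rw [map_add]; exact M.add_mem hx hy

theorem Ex.tF (E : Ex e μ g g') {M : Submodule ℂ (End ℂ W)}
    (hM : ∀ X ∈ M, brk μ X ∈ M) : TF g g' M where
  inv := E.inv
  inv' := E.inv'
  stable := E.stable hM
  tf := by
    intro β hβ m hm hβm X _ hX
    rcases E.gen hX with h | ⟨a, ha, _⟩
    · exact h
    · exfalso
      apply hβ
      rw [← ha] at hβm ⊢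
      rw [E.tf a m hm hβm, E.zero]

/-- The torus of `g` consists of replicas of `μ`. -/
theorem Ex.tor (E : Ex e μ g g') {Z : End ℂ W} (hZ : Z ∈ tor g) : ∃ φ : ℂ →+ ℂ, IsRepl φ μ Z := by
  obtain ⟨θ, hθ⟩ := hZ
  let u : ℂ →+ Additive ℂˣ :=
    { toFun := fun a => Additive.ofMul (Units.mk0 (e a) (E.ne a))
      map_zero' := by
        have : Units.mk0 (e 0) (E.ne 0) = 1 := by
          ext
          exact E.zero
        rw [this]
        rfl
      map_add' := fun a b => by
        have : Units.mk0 (e (a + b)) (E.ne (a + b)) =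
            Units.mk0 (e a) (E.ne a) * Units.mk0 (e b) (E.ne b) := by
          ext
          exact E.add a b
        rw [this]
        rfl }
  refine ⟨θ.comp u, fun β v hv => ?_⟩
  have h1 : v ∈ g.maxGenEigenspace (e β) := by
    refine mem_gen.2 ⟨1, ?_⟩
    rw [pow_one]
    show g v - e β • v = 0
    rw [E.op β v hv, sub_self]
  have h2 : Z v = ext0 θ (e β) • v := hθ (e β) v h1
  rw [h2, ext0_ne θ (E.ne β)]
  rfl

section loc

variable {k : Type} [Field k] [CharZero k] [Algebra k ℂ] {V : Type} [AddCommGroup V] [Module k V]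
  [FiniteDimensional k V]

/-- The generalized eigenspace in `𝔤 ⊗ ℂ`, for the eigenvalue `β`, of the bracket with `μ`. -/
noncomputable def rootSpaceAdd (𝔤 : Submodule k (End k V)) (μ : End ℂ (ℂ ⊗[k] V)) (β : ℂ) :
    Submodule ℂ (End ℂ (ℂ ⊗[k] V)) :=
  bcS ℂ 𝔤 ⊓ (brk μ).maxGenEigenspace β

/-- `μ` is strongly regular for `𝔤`: the elements of `𝔤 ⊗ ℂ` in the generalized eigenspace of
`[μ, ·]` for the eigenvalue zero commute with each other, the other eigenvalues are simple. -/
structure StronglyRegularAdd (𝔤 : Submodule k (End k V)) (μ : End ℂ (ℂ ⊗[k] V)) : Prop where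
  torus : ∀ X ∈ rootSpaceAdd 𝔤 μ 0, ∀ Y ∈ rootSpaceAdd 𝔤 μ 0, X * Y = Y * X
  simple : ∀ β, β ≠ 0 → finrank ℂ (rootSpaceAdd 𝔤 μ β) ≤ 1

/-- **Main theorem, linear algebra**, for a strongly regular element of the Lie algebra. -/
theorem local_main_add (h : Inputs) (h2 : Inputs2) {L G : Submodule k (End k V)}
    (hcl : Closed L) (hND : NonDeg L) (hLie : IsLie L) (hG : IsLie G) (hGcl : Closed G)
    (hLG : L ≤ G) {μ : End ℂ (ℂ ⊗[k] V)} (hμ : μ ∈ bcS ℂ L) (hμr : StronglyRegularAdd G μ) :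
    ∀ X ∈ cenOf G (comm L), ∃ x ∈ L, ∃ z ∈ cent (cenOf G (comm L)), X = x + z := by
  set G' := cenOf G (comm L) with hG'
  have hLG' : L ≤ G' := fun X hX => ⟨hLG hX, fun Y hY => hY X hX⟩
  have hG'G : G' ≤ G := fun X hX => hX.1
  have hG'lie : IsLie G' := cenOf_lie hG
  have hG'cl : Closed G' := closed_cenOf hGcl _
  have hG'nd : NonDeg G' := nonDeg_cenOf h h2 hLie hcl hND hG hGcl hLG
  have hmono : bcS ℂ G' ≤ bcS ℂ G := bcS_mono hG'G
  obtain ⟨e, g, g', E⟩ := exists_Ex μ
  have hbG' : ∀ X ∈ bcS ℂ G', brk μ X ∈ bcS ℂ G' := fun X hX =>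
    (h.bc k ℂ V G').2.1 hG'lie μ (bcS_mono hLG' hμ) X hX
  have hbL : ∀ X ∈ bcS ℂ L, brk μ X ∈ bcS ℂ L := fun X hX =>
    (h.bc k ℂ V L).2.1 hLie μ hμ X hX
  have S : Sit g g' (bcS ℂ G') (bcS ℂ L) :=
    { tfG := E.tF hbG'
      lieG := (h.bc k ℂ V G').2.1 hG'lie
      ndG := (h.bc k ℂ V G').2.2.1 hG'nd
      lieL := (h.bc k ℂ V L).2.1 hLie
      ndL := (h.bc k ℂ V L).2.2.1 hND
      le := bcS_mono hLG'
      stL := E.stable hbL
      torL := fun Z hZ => by
        obtain ⟨φ, hφ⟩ := E.tor hZ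
        exact repl_mem hcl hμ hφ
      cen := fun Y hY X hX =>
        bcS_comm2 (A := G') (B := comm L) (fun X hX Y hY => hX.2 Y hY) X hX Y
          (mem_bcS_comm h.bc hY)
      jord := h2.jord k ℂ V G' hG'cl
      comm := fun X hX hX1 Y hY hY1 => by
        rcases E.gen hX1 with h0 | ⟨a, ha, hXa⟩
        · rw [h0, mul_zero, zero_mul]
        rcases E.gen hY1 with h0 | ⟨b, hb, hYb⟩
        · rw [h0, mul_zero, zero_mul]
        have ha0 : a = 0 := E.inj (ha.trans E.zero.symm)
        have hb0 : b = 0 := E.inj (hb.trans E.zero.symm)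
        rw [ha0] at hXa
        rw [hb0] at hYb
        exact hμr.torus X ⟨hmono hX, hXa⟩ Y ⟨hmono hY, hYb⟩
      simple := fun β hβ X hX hXβ hX0 Y hY hYβ => by
        rcases E.gen hXβ with h0 | ⟨a, ha, hXa⟩
        · exact absurd h0 hX0
        rcases E.gen hYβ with h0 | ⟨b, hb, hYb⟩
        · exact ⟨0, by rw [h0, zero_smul]⟩
        have hab : b = a := E.inj (hb.trans ha.symm)
        rw [hab] at hYb
        have ha0 : a ≠ 0 := by
          intro h0
          apply hβ
          rw [← ha, h0, E.zero]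
        exact smul_of_finrank (hμr.simple a ha0) ⟨hmono hX, hXa⟩ ⟨hmono hY, hYb⟩ hX0 }
  have h3 := eq_sup S
  -- descent
  have h4 : cent (bcS ℂ G') ≤ bcS ℂ (cent G') := by
    rintro Y ⟨hY, hY'⟩
    rw [(h.bc k ℂ V (cent G')).1]
    intro π
    refine ⟨((h.bc k ℂ V G').1 Y).1 hY π, fun X hX => ?_⟩
    rw [← pM_mul_bc, hY' _ (mem_bcS hX), pM_bc_mul]
  have h5 : L ⊔ cent G' ≤ G' := sup_le hLG' fun X hX => hX.1
  have h6 : L ⊔ cent G' = G' := by
    refine (h.bc k ℂ V G').2.2.2.2.1 _ h5 (le_antisymm (bcS_mono h5) (h3.trans ?_))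
    exact sup_le (bcS_mono le_sup_left) (h4.trans (bcS_mono le_sup_right))
  intro X hX
  rw [← h6] at hX
  obtain ⟨x, hx, z, hz, rfl⟩ := Submodule.mem_sup.1 hX
  exact ⟨x, hx, z, hz, rfl⟩

end loc

end Pool.Agent.H853.SR
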