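import Pool.Agent.H853.SR.Eig

/-!
# A reductive Lie algebra normalised by a strongly regular element
-/

set_option autoImplicit false
set_option linter.unusedSectionVars false

namespace Pool.Agent.H853.SR

open Module TensorProduct Pool.Agent.TH118.SG Pool.Agent.Y114.RM Pool.Agent.Y86.RM Pool.Agent.Y914.RM
  Pool.Agent.Y212.RM Pool.Agent.NH34.BD

variable {W : Type} [AddCommGroup W] [Module ℂ W] [FiniteDimensional ℂ W]

/-- The centre. -/
def cent {K : Type} [Field K] {V : Type} [AddCommGroup V] [Module K V] (G : Submodule K (End K V)) :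
    Submodule K (End K V) := cenOf G G

/-- The orthogonal projection to a subspace on which the trace form is nondegenerate. -/
theorem exists_orth {L : Submodule ℂ (End ℂ W)} (hL : NonDeg L) (a : End ℂ W) :
    ∃ p ∈ L, ∀ Y ∈ L, LinearMap.trace ℂ W ((a - p) * Y) = 0 := by
  obtain ⟨w, hw, h⟩ := Pool.Agent.Y809.RM.rep L hL
    ((LinearMap.trace ℂ W) ∘ₗ (LinearMap.mulLeft ℂ a) ∘ₗ L.subtype)
  refine ⟨w, hw, fun Y hY => ?_⟩
  have h1 := h ⟨Y, hY⟩
  rw [sub_mul, map_sub, sub_eq_zero]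
  exact h1

/-- If `[a, L] ⊆ L` the orthogonal part of `a` commutes with `L`. -/
theorem orth_comm {L : Submodule ℂ (End ℂ W)} (hLie : IsLie L) (hL : NonDeg L) {a p : End ℂ W}
    (ha : ∀ X ∈ L, a * X - X * a ∈ L) (hp : p ∈ L)
    (h : ∀ Y ∈ L, LinearMap.trace ℂ W ((a - p) * Y) = 0) :
    ∀ X ∈ L, X * (a - p) = (a - p) * X := by
  intro X hX
  have h1 : (a - p) * X - X * (a - p) ∈ L := by
    have h2 : (a - p) * X - X * (a - p) = (a * X - X * a) - (p * X - X * p) := by noncomm_ring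
    rw [h2]
    exact L.sub_mem (ha X hX) (hLie p hp X hX)
  have h2 := hL _ h1 fun Y hY => by
    rw [tr_inv]
    exact h _ (hLie X hX Y hY)
  exact (sub_eq_zero.1 h2).symm

/-- The situation: `L ⊆ G`, both are Lie algebras with nondegenerate trace form, stable under the
conjugation with `g`; `L` contains the torus of `g`; `G` commutes with all endomorphisms which
commute with `L`; `G` contains the semisimple parts of its elements; and `g` is strongly regular on
`G`. -/
structure Sit (g g' : End ℂ W) (G L : Submodule ℂ (End ℂ W)) : Prop where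
  tfG : TF g g' G
  lieG : IsLie G
  ndG : NonDeg G
  lieL : IsLie L
  ndL : NonDeg L
  le : L ≤ G
  stL : ∀ X ∈ L, AdE g g' X ∈ L
  torL : tor g ≤ L
  cen : ∀ Y : End ℂ W, (∀ X ∈ L, X * Y = Y * X) → ∀ X ∈ G, X * Y = Y * X
  jord : ∀ x ∈ G, ∃ s ∈ G, IsSemisimplePart x s
  comm : ∀ X ∈ G, X ∈ (AdE g g').maxGenEigenspace 1 → ∀ Y ∈ G, Y ∈ (AdE g g').maxGenEigenspace 1 →
    X * Y = Y * X
  simple : ∀ β, β ≠ 1 → ∀ X ∈ G, X ∈ (AdE g g').maxGenEigenspace β → X ≠ 0 →
    ∀ Y ∈ G, Y ∈ (AdE g g').maxGenEigenspace β → ∃ c : ℂ, Y = c • X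

/-- The Cartan subalgebra. -/
noncomputable def car (g g' : End ℂ W) (G : Submodule ℂ (End ℂ W)) : Submodule ℂ (End ℂ W) :=
  G ⊓ (AdE g g').maxGenEigenspace 1

theorem tor_le_car {g g' : End ℂ W} {G L : Submodule ℂ (End ℂ W)} (S : Sit g g' G L) :
    tor g ≤ car g g' G := fun Z hZ =>
  ⟨S.le (S.torL hZ), (S.tfG.iff (S.le (S.torL hZ))).2 fun Z' hZ' => tor_comm g Z' hZ' Z hZ⟩

/-- It is a maximal torus. -/
theorem tor_car {g g' : End ℂ W} {G L : Submodule ℂ (End ℂ W)} (S : Sit g g' G L) :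
    Tor G (car g g' G) where
  lie := S.lieG
  nd := S.ndG
  le := inf_le_left
  diag := by
    rintro x ⟨hx, hx1⟩
    obtain ⟨s, hs, hs1, hs2, hs3⟩ := S.jord x hx
    have hxt := (S.tfG.iff hx).1 hx1
    have hst : ∀ Z ∈ tor g, Z * s = s * Z := fun Z hZ => (hs3 Z (hxt Z hZ).symm).symm
    have hN : x - s ∈ G := G.sub_mem hx hs
    have hN1 : x - s ∈ (AdE g g').maxGenEigenspace 1 :=
      Submodule.sub_mem _ hx1 ((S.tfG.iff hs).2 hst)
    have h0 : x - s = 0 := by
      refine S.ndG _ hN fun Y hY => ?_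
      refine S.tfG.orth (N := x - s) ((S.tfG.iff hN).1 hN1) (fun Y hY hY1 => ?_) Y hY
      have hc : Commute (x - s) Y := S.comm _ hN hN1 Y hY hY1
      exact (LinearMap.isNilpotent_trace_of_isNilpotent (hc.isNilpotent_mul_right hs2)).eq_zero
    rw [sub_eq_zero.1 h0]
    exact hs1
  comm := fun a ha b hb => S.comm a ha.1 ha.2 b hb.1 hb.2
  cen := fun x hx h => ⟨hx, (S.tfG.iff hx).2 fun Z hZ => h Z (tor_le_car S hZ)⟩

/-- `L` is stable under the Cartan subalgebra. -/
theorem car_stable {g g' : End ℂ W} {G L : Submodule ℂ (End ℂ W)} (S : Sit g g' G L) :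
    ∀ a ∈ car g g' G, ∀ X ∈ L, a * X - X * a ∈ L := by
  rintro a ⟨ha, ha1⟩
  refine ind_gen S.stL (P := fun X => a * X - X * a ∈ L) ?_ ?_ ?_
  · show a * 0 - 0 * a ∈ L
    rw [mul_zero, zero_mul, sub_zero]
    exact L.zero_mem
  · intro X Y hX hY
    show a * (X + Y) - (X + Y) * a ∈ L
    have h1 : a * (X + Y) - (X + Y) * a = (a * X - X * a) + (a * Y - Y * a) := by noncomm_ring
    rw [h1]
    exact L.add_mem hX hY
  · intro β X hX hXβ
    show a * X - X * a ∈ L
    by_cases h1 : β = 1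
    · rw [h1] at hXβ
      rw [S.comm a ha ha1 X (S.le hX) hXβ, sub_self]
      exact L.zero_mem
    by_cases h0 : X = 0
    · rw [h0, mul_zero, zero_mul, sub_zero]
      exact L.zero_mem
    have h2 : a * X - X * a ∈ (AdE g g').maxGenEigenspace β := by
      refine Submodule.sub_mem _ ?_ ?_
      · have h3 := mul_gen S.tfG.inv' ha1 hXβ
        rwa [one_mul] at h3
      · have h3 := mul_gen S.tfG.inv' hXβ ha1
        rwa [mul_one] at h3
    obtain ⟨c, hc⟩ := S.simple β h1 X (S.le hX) hXβ h0 _ (S.lieG a ha X (S.le hX)) h2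
    rw [hc]
    exact L.smul_mem c hX

theorem mem_cent {K : Type} [Field K] {V : Type} [AddCommGroup V] [Module K V]
    {G : Submodule K (End K V)} {X : End K V} :
    X ∈ cent G ↔ X ∈ G ∧ ∀ Y ∈ G, X * Y = Y * X := Iff.rfl

/-- An element of `G` with `[a, L] ⊆ L` is the sum of an element of `L` and a central element
orthogonal to `L`. -/
theorem split {g g' : End ℂ W} {G L : Submodule ℂ (End ℂ W)} (S : Sit g g' G L) {a : End ℂ W}
    (haG : a ∈ G) (ha : ∀ X ∈ L, a * X - X * a ∈ L) :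
    ∃ p ∈ L, a - p ∈ cent G ∧ ∀ Y ∈ L, LinearMap.trace ℂ W ((a - p) * Y) = 0 := by
  obtain ⟨p, hp, h⟩ := exists_orth S.ndL a
  exact ⟨p, hp, ⟨G.sub_mem haG (S.le hp),
    fun Y hY => (S.cen _ (orth_comm S.lieL S.ndL ha hp h) Y hY).symm⟩, h⟩

theorem cent_mem {g g' : End ℂ W} {G L : Submodule ℂ (End ℂ W)} (S : Sit g g' G L) :
    car g g' G ≤ L ⊔ cent G := by
  intro a ha
  obtain ⟨p, hp, h1, h2⟩ := split S ha.1 (car_stable S a ha)
  have h3 : a = p + (a - p) := by abel
  rw [h3]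
  exact Submodule.add_mem_sup hp h1

/-- **The main step**: `G` is the sum of `L` and of its centre. -/
theorem eq_sup {g g' : End ℂ W} {G L : Submodule ℂ (End ℂ W)} (S : Sit g g' G L) :
    G ≤ L ⊔ cent G := by
  have hcG : cent G ≤ G := fun X hX => hX.1
  have hMG : L ⊔ cent G ≤ G := sup_le S.le hcG
  have hMlie : ∀ X ∈ L ⊔ cent G, ∀ Y ∈ L ⊔ cent G, X * Y - Y * X ∈ L := by
    intro X hX Y hY
    obtain ⟨x, hx, z, hz, rfl⟩ := Submodule.mem_sup.1 hX
    obtain ⟨y, hy, w, hw, rfl⟩ := Submodule.mem_sup.1 hY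
    have e : (x + z) * (y + w) - (y + w) * (x + z) = (x * y - y * x) + (z * y - y * z) +
        ((x + z) * w - w * (x + z)) := by noncomm_ring
    rw [e, hz.2 y (S.le hy), sub_self, ← hw.2 (x + z) (G.add_mem (S.le hx) hz.1), sub_self, add_zero,
      add_zero]
    exact S.lieL x hx y hy
  have hND : NonDeg (L ⊔ cent G) := by
    intro X hX hXY
    obtain ⟨x, hx, z, hz, rfl⟩ := Submodule.mem_sup.1 hX
    obtain ⟨p, hp, h1, h2⟩ := split S hz.1 (fun Y hY => by
      rw [hz.2 Y (S.le hY), sub_self]; exact L.zero_mem)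
    -- the component in `L` is zero
    have hx' : x + p = 0 := by
      refine S.ndL _ (L.add_mem hx hp) fun Y hY => ?_
      have h3 := hXY Y (Submodule.mem_sup_left hY)
      have h4 : (x + z) * Y = (x + p) * Y + (z - p) * Y := by noncomm_ring
      rw [h4, map_add, h2 Y hY, add_zero] at h3
      exact h3
    have e1 : x + z = z - p := by
      have h3 : x = -p := eq_neg_of_add_eq_zero_left hx'
      rw [h3]; abel
    rw [e1]
    refine S.ndG _ h1.1 fun Y hY => ?_
    refine S.tfG.orth (N := z - p) (fun Z hZ => (h1.2 Z (S.le (S.torL hZ))).symm)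
      (fun Y hY hY1 => ?_) Y hY
    have h3 := hXY Y (cent_mem S ⟨hY, hY1⟩)
    rwa [e1] at h3
  refine core (tor_car S) hMG (fun X hX Y hY => Submodule.mem_sup_left (hMlie X hX Y hY))
    (cent_mem S) hND hMG le_rfl (fun X hX Y hY => S.lieG X (hMG hX) Y hY) fun Y hY => ?_
  exact S.cen Y fun X hX => hY X (Submodule.mem_sup_left hX)

end Pool.Agent.H853.SR
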