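import Pool.Agent.H853.SR.Nd
import Pool.Graph.R_pool_sql_team_seeded_3dad9d7b.NH34.BD.Gal

/-!
# The generalized eigenspaces of a conjugation
-/

set_option autoImplicit false
set_option linter.unusedSectionVars false

namespace Pool.Agent.H853.SR

open Module TensorProduct Pool.Agent.TH118.SG Pool.Agent.Y114.RM Pool.Agent.Y86.RM Pool.Agent.Y914.RM
  Pool.Agent.Y212.RM Pool.Agent.NH34.BD

/-- A number which is not a root of unity is detected by an additive function. -/
theorem exists_theta {β : ℂ} (h0 : β ≠ 0) (h : ∀ m : ℕ, 0 < m → β ^ m ≠ 1) :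
    ∃ θ : Additive ℂˣ →+ ℂ, ext0 θ β ≠ 0 := by
  let u : Additive ℂˣ := Additive.ofMul (Units.mk0 β h0)
  let f : ℤ →+ Additive ℂˣ := zmultiplesHom _ u
  have hf : Function.Injective f := by
    rw [injective_iff_map_eq_zero]
    intro a ha
    by_contra hne
    have h1 : (Units.mk0 β h0) ^ a = 1 := by
      have h2 : a • u = 0 := ha
      exact congrArg Additive.toMul h2
    have h2 : (Units.mk0 β h0) ^ a.natAbs = 1 := by
      rcases Int.natAbs_eq a with h3 | h3
      · rw [h3, zpow_natCast] at h1; exact h1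
      · rw [h3, zpow_neg, zpow_natCast, inv_eq_one] at h1; exact h1
    have h3 := congrArg (fun v : ℂˣ => (v : ℂ)) h2
    simp only [Units.val_pow_eq_pow_val, Units.val_mk0, Units.val_one] at h3
    exact h a.natAbs (Int.natAbs_pos.2 hne) h3
  let g : ℤ →+ ℂ := Int.castAddHom ℂ
  obtain ⟨θ, hθ⟩ := (Module.Baer.of_divisible ℂ).extension_property_addMonoidHom f hf g
  refine ⟨θ, ?_⟩
  rw [ext0_ne θ h0]
  have h1 : θ (f 1) = g 1 := DFunLike.congr_fun hθ 1
  have h2 : f 1 = u := by
    change (1 : ℤ) • u = u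
    rw [one_smul]
  rw [h2] at h1
  change θ u ≠ 0
  rw [h1]
  simp [g]

variable {W : Type} [AddCommGroup W] [Module ℂ W] [FiniteDimensional ℂ W]

section mul

variable {K : Type} [Field K] {V : Type} [AddCommGroup V] [Module K V] {g g' : End K V}

theorem AdE_mul (h' : g' * g = 1) (X Y : End K V) : AdE g g' (X * Y) = AdE g g' X * AdE g g' Y := by
  rw [AdE_apply, AdE_apply, AdE_apply]
  calc g * (X * Y * g') = g * (X * ((g' * g) * Y) * g') := by rw [h', one_mul]
    _ = g * (X * g') * (g * (Y * g')) := by noncomm_ring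

theorem mul_gen_aux (h' : g' * g = 1) {a b : K} : ∀ (k m n : ℕ) (X Y : End K V),
    m + n ≤ k → ((AdE g g' - algebraMap K (End K (End K V)) a) ^ m) X = 0 →
    ((AdE g g' - algebraMap K (End K (End K V)) b) ^ n) Y = 0 →
    ((AdE g g' - algebraMap K (End K (End K V)) (a * b)) ^ k) (X * Y) = 0 := by
  intro k
  induction k with
  | zero =>
    intro m n X Y hmn hX _
    have h1 : m = 0 := by omega
    rw [h1, pow_zero, Module.End.one_apply] at hX
    rw [hX, zero_mul, map_zero]
  | succ k ih =>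
    intro m n X Y hmn hX hY
    rcases m with _ | m
    · rw [pow_zero, Module.End.one_apply] at hX
      rw [hX, zero_mul, map_zero]
    rcases n with _ | n
    · rw [pow_zero, Module.End.one_apply] at hY
      rw [hY, mul_zero, map_zero]
    set N := AdE g g' - algebraMap K (End K (End K V)) a with hN
    set ν := AdE g g' - algebraMap K (End K (End K V)) b with hν
    have e1 : (N X) * (ν Y) + b • ((N X) * Y) + a • (X * (ν Y)) =
        (AdE g g' - algebraMap K (End K (End K V)) (a * b)) (X * Y) := by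
      have h2 : ∀ Z, N Z = AdE g g' Z - a • Z := fun Z => rfl
      have h3 : ∀ Z, ν Z = AdE g g' Z - b • Z := fun Z => rfl
      have h5 : (AdE g g' - algebraMap K (End K (End K V)) (a * b)) (X * Y) =
        AdE g g' (X * Y) - (a * b) • (X * Y) := rfl
      rw [h5, h2, h3, AdE_mul h']
      simp only [sub_mul, mul_sub, smul_sub, smul_mul_assoc, mul_smul_comm, smul_smul]
      rw [mul_comm b a]
      abel
    rw [pow_succ, Module.End.mul_apply, ← e1, map_add, map_add, map_smul, map_smul]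
    have hNX : (N ^ m) (N X) = 0 := by
      rw [← Module.End.mul_apply, ← pow_succ]
      exact hX
    have hνY : (ν ^ n) (ν Y) = 0 := by
      rw [← Module.End.mul_apply, ← pow_succ]
      exact hY
    rw [ih m n (N X) (ν Y) (by omega) hNX hνY, ih m (n + 1) (N X) Y (by omega) hNX hY,
      ih (m + 1) n X (ν Y) (by omega) hX hνY, smul_zero, smul_zero, add_zero, add_zero]

theorem mul_gen (h' : g' * g = 1) {a b : K} {X Y : End K V}
    (hX : X ∈ (AdE g g').maxGenEigenspace a) (hY : Y ∈ (AdE g g').maxGenEigenspace b) :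
    X * Y ∈ (AdE g g').maxGenEigenspace (a * b) := by
  obtain ⟨m, hm⟩ := mem_gen.1 hX
  obtain ⟨n, hn⟩ := mem_gen.1 hY
  exact mem_gen.2 ⟨m + n, mul_gen_aux h' (m + n) m n X Y le_rfl hm hn⟩

end mul

/-- A stable space of endomorphisms is the sum of its generalized eigenspaces. -/
theorem ind_gen {g g' : End ℂ W} {M : Submodule ℂ (End ℂ W)}
    (hM : ∀ X ∈ M, AdE g g' X ∈ M) {P : End ℂ W → Prop} (h0 : P 0)
    (hadd : ∀ X Y, P X → P Y → P (X + Y))
    (hgen : ∀ β, ∀ X ∈ M, X ∈ (AdE g g').maxGenEigenspace β → P X) : ∀ X ∈ M, P X := by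
  intro X hX
  have h1 : M = ⨆ c, M ⊓ (AdE g g').maxGenEigenspace c :=
    Submodule.eq_iSup_inf_genEigenspace ⊤ hM (Module.End.iSup_maxGenEigenspace_eq_top _)
  rw [h1] at hX
  induction hX using Submodule.iSup_induction' with
  | mem c x hx => exact hgen c x hx.1 hx.2
  | zero => exact h0
  | add x y _ _ hx hy => exact hadd x y hx hy

/-- The torus of `g` acts on the generalized eigenspaces of the conjugation by scalars. -/
theorem tor_gen {g g' : End ℂ W} (h1 : g * g' = 1) (h2 : g' * g = 1) {θ : Additive ℂˣ →+ ℂ}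
    {Z : End ℂ W} (hZ : IsOp θ g Z) {β : ℂ} {X : End ℂ W}
    (hX : X ∈ (AdE g g').maxGenEigenspace β) : Z * X - X * Z = ext0 θ β • X :=
  Pool.Agent.Y960.RM.ad ℂ W θ g g' Z h1 h2 hZ β X hX

theorem tor_comm_g {g : End ℂ W} {Z : End ℂ W} (hZ : Z ∈ tor g) : Z * g = g * Z := by
  obtain ⟨θ, hθ⟩ := hZ
  refine LinearMap.ext fun x => ?_
  exact (op_nat (A := g) (f₁ := g) (f₂ := g) (fun x => rfl) hθ hθ x).symm

theorem gen_zero_ev {g g' : End ℂ W} (h1 : g * g' = 1) (h2 : g' * g = 1) {X : End ℂ W}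
    (hX : X ∈ (AdE g g').maxGenEigenspace 0) : X = 0 := by
  obtain ⟨m, hm⟩ := mem_gen.1 hX
  rw [map_zero, sub_zero] at hm
  have hinj : Function.Injective (AdE g g') := by
    apply injective_of_mul (g' := AdE g' g)
    refine LinearMap.ext fun X => ?_
    rw [Module.End.mul_apply, AdE_apply, AdE_apply, Module.End.one_apply, mul_assoc, mul_assoc,
      h2, mul_one, ← mul_assoc, h2, one_mul]
  have : ∀ n : ℕ, ∀ X, ((AdE g g') ^ n) X = 0 → X = 0 := by
    intro n
    induction n with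
    | zero => intro X h; exact h
    | succ n ih =>
      intro X h
      rw [pow_succ, Module.End.mul_apply] at h
      have h3 := ih _ h
      exact hinj (by rw [h3, map_zero])
  exact this m X hm

/-- The torus condition: `G` is stable under the conjugation, and no root of unity except `1` is an
eigenvalue on `G`. -/
structure TF (g g' : End ℂ W) (G : Submodule ℂ (End ℂ W)) : Prop where
  inv : g * g' = 1
  inv' : g' * g = 1
  stable : ∀ X ∈ G, AdE g g' X ∈ G
  tf : ∀ β, β ≠ 1 → ∀ m : ℕ, 0 < m → β ^ m = 1 → ∀ X ∈ G, X ∈ (AdE g g').maxGenEigenspace β → X = 0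

theorem TF.mono {g g' : End ℂ W} {G H : Submodule ℂ (End ℂ W)} (T : TF g g' G) (h : H ≤ G)
    (hs : ∀ X ∈ H, AdE g g' X ∈ H) : TF g g' H :=
  ⟨T.inv, T.inv', hs, fun β h1 m h2 h3 X hX => T.tf β h1 m h2 h3 X (h hX)⟩

/-- Either the eigenvalue is one, or the vector is zero, or an element of the torus detects it. -/
theorem TF.cases {g g' : End ℂ W} {G : Submodule ℂ (End ℂ W)} (T : TF g g' G) {β : ℂ}
    {X : End ℂ W} (hX : X ∈ G) (hXβ : X ∈ (AdE g g').maxGenEigenspace β) :
    β = 1 ∨ X = 0 ∨ ∃ Z ∈ tor g, ∃ c : ℂ, c ≠ 0 ∧ Z * X - X * Z = c • X := by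
  by_cases h1 : β = 1
  · exact Or.inl h1
  by_cases h0 : β = 0
  · rw [h0] at hXβ
    exact Or.inr (Or.inl (gen_zero_ev T.inv T.inv' hXβ))
  by_cases ht : ∃ m : ℕ, 0 < m ∧ β ^ m = 1
  · obtain ⟨m, hm, hβ⟩ := ht
    exact Or.inr (Or.inl (T.tf β h1 m hm hβ X hX hXβ))
  push Not at ht
  obtain ⟨θ, hθ⟩ := exists_theta h0 ht
  obtain ⟨Z, hZ⟩ := TH118.SG.exists_op g (fun z => ext0 θ z)
  exact Or.inr (Or.inr ⟨Z, ⟨θ, hZ⟩, ext0 θ β, hθ, tor_gen T.inv T.inv' hZ hXβ⟩)

/-- The elements of `G` which commute with the torus are those in the generalized eigenspace for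
the eigenvalue one. -/
theorem TF.iff {g g' : End ℂ W} {G : Submodule ℂ (End ℂ W)} (T : TF g g' G) {X : End ℂ W}
    (hX : X ∈ G) : X ∈ (AdE g g').maxGenEigenspace 1 ↔ ∀ Z ∈ tor g, Z * X = X * Z := by
  constructor
  · rintro h Z ⟨θ, hθ⟩
    have h1 := tor_gen T.inv T.inv' hθ h
    rw [ext0_one, zero_smul] at h1
    exact sub_eq_zero.1 h1
  · intro h
    let M : Submodule ℂ (End ℂ W) :=
      { carrier := {X | X ∈ G ∧ ∀ Z ∈ tor g, Z * X = X * Z}
        add_mem' := by
          rintro a b ⟨ha, ha'⟩ ⟨hb, hb'⟩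
          exact ⟨G.add_mem ha hb, fun Z hZ => by rw [mul_add, add_mul, ha' Z hZ, hb' Z hZ]⟩
        zero_mem' := ⟨G.zero_mem, fun Z _ => by rw [mul_zero, zero_mul]⟩
        smul_mem' := by
          rintro c a ⟨ha, ha'⟩
          exact ⟨G.smul_mem c ha, fun Z hZ => by rw [mul_smul_comm, smul_mul_assoc, ha' Z hZ]⟩ }
    have hM : ∀ X ∈ M, AdE g g' X ∈ M := by
      rintro X ⟨hX, hX'⟩
      refine ⟨T.stable X hX, fun Z hZ => ?_⟩
      have h1 : Z * g = g * Z := tor_comm_g hZ
      have h2 : Z * g' = g' * Z := by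
        calc Z * g' = (g' * g) * (Z * g') := by rw [T.inv', one_mul]
          _ = g' * (g * Z) * g' := by noncomm_ring
          _ = g' * (Z * g) * g' := by rw [h1]
          _ = g' * Z * (g * g') := by noncomm_ring
          _ = g' * Z := by rw [T.inv, mul_one]
      rw [AdE_apply]
      calc Z * (g * (X * g')) = (Z * g) * X * g' := by noncomm_ring
        _ = g * (Z * X) * g' := by rw [h1]; noncomm_ring
        _ = g * X * (Z * g') := by rw [hX' Z hZ]; noncomm_ring
        _ = g * (X * g') * Z := by rw [h2]; noncomm_ring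
    refine ind_gen hM (P := fun X => X ∈ (AdE g g').maxGenEigenspace 1) (Submodule.zero_mem _)
      (fun X Y hX hY => Submodule.add_mem _ hX hY) ?_ X ⟨hX, h⟩
    rintro β X ⟨hX, hX'⟩ hβ
    rcases T.cases hX hβ with h1 | h1 | ⟨Z, hZ, c, hc, h1⟩
    · rw [h1] at hβ; exact hβ
    · rw [h1]; exact Submodule.zero_mem _
    · rw [hX' Z hZ, sub_self] at h1
      rw [(smul_eq_zero.1 h1.symm).resolve_left hc]
      exact Submodule.zero_mem _

/-- An element which commutes with the torus of `g` and is orthogonal to the elements of `G` in the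
generalized eigenspace for the eigenvalue one is orthogonal to `G`. -/
theorem TF.orth {g g' : End ℂ W} {G : Submodule ℂ (End ℂ W)} (T : TF g g' G) {N : End ℂ W}
    (hN : ∀ Z ∈ tor g, Z * N = N * Z)
    (h1 : ∀ Y ∈ G, Y ∈ (AdE g g').maxGenEigenspace 1 → LinearMap.trace ℂ W (N * Y) = 0) :
    ∀ Y ∈ G, LinearMap.trace ℂ W (N * Y) = 0 := by
  refine ind_gen T.stable (P := fun Y => LinearMap.trace ℂ W (N * Y) = 0) ?_ ?_ ?_
  · show LinearMap.trace ℂ W (N * 0) = 0
    rw [mul_zero, map_zero]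
  · intro X Y hX hY
    show LinearMap.trace ℂ W (N * (X + Y)) = 0
    rw [mul_add, map_add, hX, hY, add_zero]
  · intro β Y hY hYβ
    show LinearMap.trace ℂ W (N * Y) = 0
    rcases T.cases hY hYβ with h2 | h2 | ⟨Z, hZ, c, hc, h2⟩
    · rw [h2] at hYβ; exact h1 Y hY hYβ
    · rw [h2, mul_zero, map_zero]
    · have h3 : Z * N - N * Z = (0 : ℂ) • N := by rw [hN Z hZ, sub_self, zero_smul]
      exact trace_wt h3 h2 (by rwa [zero_add])

end Pool.Agent.H853.SR
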