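import Pool.Agent.H853.SR.Repl
import Pool.Graph.R_seed8.Y114.RM.Semi

/-!
# The trace form of a tensor stabilizer which acts completely reducibly is nondegenerate
-/

set_option autoImplicit false
set_option linter.unusedSectionVars false

namespace Pool.Agent.H853.SR

open Module TensorProduct Pool.Agent.TH118.SG Pool.Agent.Y114.RM Pool.Agent.Y86.RM Pool.Agent.Y914.RM

section nil

variable {K : Type} [Field K] [CharZero K] [IsAlgClosed K] {V : Type} [AddCommGroup V] [Module K V]
  [FiniteDimensional K V]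

theorem finite_gen (x : End K V) : {β | x.maxGenEigenspace β ≠ ⊥}.Finite := by
  refine (Module.End.finite_hasEigenvalue x).subset fun β hβ => ?_
  by_contra h
  apply hβ
  rw [eq_bot_iff]
  intro v hv
  by_contra hv0
  apply h
  have h1 : x.HasUnifEigenvalue β ⊤ := by
    intro h2
    apply hv0
    have h3 : v ∈ x.genEigenspace β ⊤ := hv
    rw [h2] at h3
    exact h3
  exact h1.lt zero_lt_one

theorem trace_repl {φ : K →+ K} {x s : End K V} (hs : IsRepl φ x s) :
    LinearMap.trace K V (x * s) =
      ∑ β ∈ (finite_gen x).toFinset, φ β * (β * finrank K (x.maxGenEigenspace β)) := by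
  classical
  have hm : ∀ β, Set.MapsTo (x * s : End K V) (x.maxGenEigenspace β) (x.maxGenEigenspace β) := by
    intro β v hv
    change x (s v) ∈ x.maxGenEigenspace β
    rw [hs β v hv, map_smul]
    refine Submodule.smul_mem _ _ ?_
    exact map_gen (f₁ := x) (f₂ := x) (A := x) (fun _ => rfl) hv
  rw [LinearMap.trace_eq_sum_trace_restrict' (gen_internal x) (finite_gen x) hm]
  refine Finset.sum_congr rfl fun β _ => ?_
  have hx : ∀ v ∈ x.maxGenEigenspace β, x v ∈ x.maxGenEigenspace β := fun v hv =>
    map_gen (f₁ := x) (f₂ := x) (A := x) (fun _ => rfl) hv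
  have h1 : (x * s : End K V).restrict (hm β) = φ β • x.restrict hx := by
    refine LinearMap.ext fun v => Subtype.ext ?_
    change x (s v) = φ β • x v
    rw [hs β v v.2, map_smul]
  rw [h1, map_smul, smul_eq_mul]
  congr 1
  have h2 := LinearMap.trace_comp_eq_mul_of_commute_of_isNilpotent (R := K)
    (M := x.maxGenEigenspace β) (f := LinearMap.id) (g := x.restrict hx) β
    (LinearMap.ext fun v => rfl) ?_
  · rw [LinearMap.id_comp, LinearMap.trace_id] at h2
    exact h2
  · exact Module.End.isNilpotent_restrict_maxGenEigenspace_sub_algebraMap x β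
  
theorem nil_of_repl {x : End K V}
    (h : ∀ (φ : K →+ K) (s : End K V), IsRepl φ x s → LinearMap.trace K V (x * s) = 0) :
    IsNilpotent x := by
  classical
  -- all generalized eigenvalues are zero
  have key : ∀ β, x.maxGenEigenspace β ≠ ⊥ → β = 0 := by
    intro β hβ
    by_contra h0
    obtain ⟨f, hf⟩ : ∃ f : K →ₗ[ℚ] ℚ, f β ≠ 0 := by
      by_contra hno
      push Not at hno
      exact h0 ((Module.forall_dual_apply_eq_zero_iff ℚ β).1 hno)
    let φ : K →+ K := ((algebraMap ℚ K) : ℚ →+ K).comp f.toAddMonoidHom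
    have hφ : ∀ a, φ a = algebraMap ℚ K (f a) := fun a => rfl
    obtain ⟨s, hs⟩ := exists_repl φ x
    have h1 := h φ s hs
    rw [trace_repl hs] at h1
    have h2 := congrArg f h1
    rw [map_sum, map_zero] at h2
    have h3 : ∀ a, f (φ a * (a * (finrank K (x.maxGenEigenspace a) : K))) =
        f a ^ 2 * (finrank K (x.maxGenEigenspace a) : ℚ) := by
      intro a
      have h4 : φ a * (a * (finrank K (x.maxGenEigenspace a) : K)) =
          (f a * (finrank K (x.maxGenEigenspace a) : ℚ)) • a := by
        rw [hφ, Algebra.smul_def, map_mul, map_natCast]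
        ring
      rw [h4, map_smul, smul_eq_mul]
      ring
    rw [Finset.sum_congr rfl fun a _ => h3 a, Finset.sum_eq_zero_iff_of_nonneg
      (fun a _ => by positivity)] at h2
    have h5 := h2 β ((finite_gen x).mem_toFinset.2 hβ)
    rcases mul_eq_zero.1 h5 with h6 | h6
    · exact hf (pow_eq_zero_iff two_ne_zero |>.1 h6)
    · have h7 : finrank K (x.maxGenEigenspace β) = 0 := by exact_mod_cast h6
      exact hβ (Submodule.finrank_eq_zero.1 h7)
  have h1 : x.maxGenEigenspace 0 = ⊤ := by
    rw [eq_top_iff, ← Module.End.iSup_maxGenEigenspace_eq_top x]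
    refine iSup_le fun β => ?_
    by_cases hβ : x.maxGenEigenspace β = ⊥
    · rw [hβ]; exact bot_le
    · rw [key β hβ]
  refine ⟨finrank K V, LinearMap.ext fun v => ?_⟩
  have h2 : v ∈ x.maxGenEigenspace 0 := by rw [h1]; trivial
  rw [Module.End.maxGenEigenspace_eq_genEigenspace_finrank, Module.End.mem_genEigenspace_nat,
    zero_smul, sub_zero] at h2
  exact h2

end nil

section engel

variable {K : Type} [Field K] {V : Type} [AddCommGroup V] [Module K V] [FiniteDimensional K V]

attribute [local instance 100] LieRing.ofAssociativeRing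

/-- The theorem of Engel. -/
theorem engel {R : Submodule K (End K V)} (hR : IsLie R) (hnil : ∀ X ∈ R, IsNilpotent X)
    {W : Submodule K V} (hW : ∀ X ∈ R, ∀ v ∈ W, X v ∈ W) (hW0 : W ≠ ⊥) :
    ∃ v ∈ W, v ≠ 0 ∧ ∀ X ∈ R, X v = 0 := by
  let R' : LieSubalgebra K (End K V) := { R with lie_mem' := fun {X Y} hX hY => hR X hX Y hY }
  let W' : LieSubmodule K R' V := { W with lie_mem := fun {X v} hv => hW X.1 X.2 v hv }
  have h1 : LieModule.IsNilpotent R' W' := by
    rw [LieModule.isNilpotent_iff_forall' (R := K)]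
    intro X
    obtain ⟨n, hn⟩ := hnil X.1 X.2
    refine ⟨n, ?_⟩
    have h2 : ∀ (n : ℕ) (v : W'), (((LieModule.toEnd K R' W' X) ^ n) v : V) = (X.1 ^ n) v := by
      intro n
      induction n with
      | zero => intro v; rfl
      | succ n ih =>
        intro v
        rw [pow_succ, pow_succ, Module.End.mul_apply, Module.End.mul_apply, ih]
        rfl
    refine LinearMap.ext fun v => Subtype.ext ?_
    rw [h2, hn]
    rfl
  have h3 : Nontrivial W' := by
    obtain ⟨v, hv, hv0⟩ := Submodule.exists_mem_ne_zero_of_ne_bot hW0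
    refine ⟨⟨v, hv⟩, 0, fun h => hv0 ?_⟩
    exact congrArg (fun w : W' => (w : V)) h
  have h5 : Nontrivial (LieModule.maxTrivSubmodule K R' W') :=
    LieModule.nontrivial_max_triv_of_isNilpotent K R' W'
  obtain ⟨v, hv⟩ := exists_ne (0 : LieModule.maxTrivSubmodule K R' W')
  refine ⟨v.1.1, v.1.2, fun h => hv (Subtype.ext (Subtype.ext h)), fun X hX => ?_⟩
  have h4 := v.2
  rw [LieModule.mem_maxTrivSubmodule] at h4
  exact congrArg Subtype.val (h4 ⟨X, hX⟩)

end engel

section nd

variable {k : Type} [Field k] {V : Type} [AddCommGroup V] [Module k V]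

/-- The radical of the trace form. -/
noncomputable def radOf (G : Submodule k (End k V)) : Submodule k (End k V) where
  carrier := {X | X ∈ G ∧ ∀ Y ∈ G, LinearMap.trace k V (X * Y) = 0}
  add_mem' := by
    rintro a b ⟨ha, ha'⟩ ⟨hb, hb'⟩
    refine ⟨G.add_mem ha hb, fun Y hY => ?_⟩
    rw [add_mul, map_add, ha' Y hY, hb' Y hY, add_zero]
  zero_mem' := ⟨G.zero_mem, fun Y _ => by rw [zero_mul, map_zero]⟩
  smul_mem' := by
    rintro c a ⟨ha, ha'⟩
    refine ⟨G.smul_mem c ha, fun Y hY => ?_⟩
    rw [smul_mul_assoc, map_smul, ha' Y hY, smul_zero]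

/-- The common kernel. -/
def kerOf (R : Submodule k (End k V)) : Submodule k V where
  carrier := {v | ∀ X ∈ R, X v = 0}
  add_mem' := fun ha hb X hX => by rw [map_add, ha X hX, hb X hX, add_zero]
  zero_mem' := fun X _ => map_zero X
  smul_mem' := fun c a ha X hX => by rw [map_smul, ha X hX, smul_zero]

variable [FiniteDimensional k V]

theorem tr_inv (a b c : End k V) : LinearMap.trace k V ((a * b - b * a) * c) =
    LinearMap.trace k V (a * (b * c - c * b)) := by
  rw [sub_mul, mul_sub, map_sub, map_sub, mul_assoc b a c, LinearMap.trace_mul_comm k b (a * c),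
    mul_assoc, mul_assoc]

theorem radOf_ideal {G : Submodule k (End k V)} (hG : IsLie G) {X Y : End k V}
    (hX : X ∈ radOf G) (hY : Y ∈ G) : Y * X - X * Y ∈ radOf G := by
  refine ⟨hG Y hY X hX.1, fun Z hZ => ?_⟩
  have h1 : (Y * X - X * Y) * Z = -((X * Y - Y * X) * Z) := by noncomm_ring
  rw [h1, map_neg, tr_inv, hX.2 _ (hG Y hY Z hZ), neg_zero]

theorem radOf_lie {G : Submodule k (End k V)} (hG : IsLie G) : IsLie (radOf G) :=
  fun X hX _ hY => radOf_ideal hG hY hX.1

/-- The elements of the radical of the trace form are nilpotent. -/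
theorem radOf_nil [CharZero k] {C : Type} [Field C] [CharZero C] [IsAlgClosed C] [Algebra k C]
    {G : Submodule k (End k V)}
    (hG : ∀ X, (∀ (m : ℕ) (φ : Tensor k V m), (∀ Y ∈ G, KillsTensor Y φ) → KillsTensor X φ) →
      X ∈ G) : ∀ X ∈ radOf G, IsNilpotent X := by
  intro X hX
  have h1 : IsNilpotent (X.baseChange C : End C (C ⊗[k] V)) := by
    refine nil_of_repl fun φ s hs => ?_
    have h2 : s ∈ bcS C G := repl_mem hG (mem_bcS hX.1) hs
    have h3 : ∀ Y ∈ bcS C G, LinearMap.trace C (C ⊗[k] V) (X.baseChange C * Y) = 0 := by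
      intro Y hY
      induction hY using Submodule.span_induction with
      | mem Y hY =>
        obtain ⟨Z, hZ, rfl⟩ := hY
        rw [← bc_mul, LinearMap.trace_baseChange, hX.2 Z hZ, map_zero]
      | zero => rw [mul_zero, map_zero]
      | add a b _ _ ha hb => rw [mul_add, map_add, ha, hb, add_zero]
      | smul c a _ ha => rw [mul_smul_comm, map_smul, ha, smul_zero]
    exact h3 s h2
  obtain ⟨n, hn⟩ := h1
  refine ⟨n, ?_⟩
  have h2 : ∀ n : ℕ, ((X ^ n).baseChange C : End C (C ⊗[k] V)) = (X.baseChange C) ^ n := by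
    intro n
    induction n with
    | zero => rw [pow_zero, pow_zero, bc_one]
    | succ n ih => rw [pow_succ, bc_mul, ih, ← pow_succ]
  refine Pool.Agent.Y114.RM.bc_inj (C := C) ?_
  rw [h2, hn]
  exact (LinearMap.baseChange_zero ..).symm

/-- **Nondegeneracy of the trace form**: `G` is the Lie algebra of a tensor stabilizer, and the
common kernel of the radical of the trace form has a complement which is stable under the radical. -/
theorem nonDeg_of [CharZero k] (C : Type) [Field C] [CharZero C] [IsAlgClosed C] [Algebra k C]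
    {G : Submodule k (End k V)} (hLie : IsLie G)
    (hG : ∀ X, (∀ (m : ℕ) (φ : Tensor k V m), (∀ Y ∈ G, KillsTensor Y φ) → KillsTensor X φ) →
      X ∈ G) {W : Submodule k V} (hW : ∀ X ∈ radOf G, ∀ v ∈ W, X v ∈ W)
    (hc : IsCompl (kerOf (radOf G)) W) : NonDeg G := by
  have h0 : W = ⊥ := by
    by_contra hne
    obtain ⟨v, hv, hv0, hvk⟩ := engel (radOf_lie hLie) (radOf_nil (C := C) hG) hW hne
    have h1 : v ∈ kerOf (radOf G) ⊓ W := ⟨hvk, hv⟩
    rw [hc.inf_eq_bot] at h1
    exact hv0 h1
  have h1 : kerOf (radOf G) = ⊤ := by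
    have h2 := hc.sup_eq_top
    rwa [h0, sup_bot_eq] at h2
  intro X hX hXY
  refine LinearMap.ext fun v => ?_
  have h2 : v ∈ kerOf (radOf G) := by rw [h1]; trivial
  exact h2 X ⟨hX, hXY⟩

end nd

end Pool.Agent.H853.SR
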